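import Pool.Agent.Lib_helper41.TK.Defs
import Pool.Agent.Lib_helper68.KSLF.WWF

/-! TK, block TB. -/

set_option autoImplicit false

namespace Pool.Agent.TK

open Pool.Agent.LEV Pool.Agent.LVB Pool.Agent.KSL
open Pool.Agent.LK (PQ)
open Pool.Agent.FG61 (mu phi cc ff AA Lam)
open Complex MeasureTheory Filter Topology UpperHalfPlane ModularGroup ProbabilityTheory
open scoped MatrixGroups Modular ENNReal ModularForm ComplexConjugate ContDiff

/-- the coefficients coprime to `q` -/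
noncomputable def tb_y (q z M K e : ℕ) : ℝ := if e.Coprime q then yE z M K e else 0

theorem tb_wC (q z M K r : ℕ) : wC q z M K r = ∑ m ∈ Finset.Icc 1 (K * M), tb_y q z M K (r * m) := by
  unfold wC tb_y
  rw [Finset.sum_filter]

theorem tb_y_ne {q z M K e : ℕ} (h : tb_y q z M K e ≠ 0) : e.Coprime q ∧ yE z M K e ≠ 0 := by
  unfold tb_y at h
  split_ifs at h with h1
  · exact ⟨h1, h⟩
  · exact absurd rfl h

theorem wC_supp {q z M K r : ℕ} (hr : wC q z M K r ≠ 0) : rough z r ∧ 1 ≤ r ∧ Squarefree r ∧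
    r ≤ K * M ∧ r.Coprime q := by
  rw [tb_wC] at hr
  obtain ⟨m, hm, h1⟩ := Finset.exists_ne_zero_of_sum_ne_zero hr
  rw [Finset.mem_Icc] at hm
  obtain ⟨hcq, h1⟩ := tb_y_ne h1
  have hK : 1 ≤ K := by
    rw [Nat.one_le_iff_ne_zero]
    intro h; rw [h] at hm; omega
  obtain ⟨h2, h3, _⟩ := wwf_yE h1
  have hle := wwf_yE_le hK h1
  have hr1 : 1 ≤ r := by
    rw [Nat.one_le_iff_ne_zero]
    intro h; rw [h] at h3; omega
  have h7 : Squarefree (r * m) := by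
    by_contra h
    apply h1
    unfold yE
    rw [if_pos ⟨h2, h3⟩]
    unfold mu
    rw [ArithmeticFunction.moebius_eq_zero_of_not_squarefree h]
    simp
  exact ⟨fun p hp h => h2 p hp (h.mul_right _), hr1, h7.of_mul_left,
    (Nat.le_mul_of_pos_right r (by omega)).trans hle, Nat.Coprime.coprime_mul_right hcq⟩

theorem tb_al_supp {q z A : ℕ} {a : ℕ → ℝ}
    (ha : ∀ k, a k ≠ 0 → smooth z k ∧ k ≤ A ∧ k.Coprime q) {u : ℕ} (hu : al A a u ≠ 0) :
    smooth z u ∧ u ≤ A ∧ u.Coprime q := by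
  obtain ⟨h1, h2⟩ := al_supp (fun k hk => ⟨(ha k hk).1, (ha k hk).2.1⟩) hu
  refine ⟨h1, h2, ?_⟩
  unfold al at hu
  obtain ⟨k, hk, h3⟩ := Finset.exists_ne_zero_of_sum_ne_zero hu
  rw [Finset.mem_filter, Finset.mem_Icc] at hk
  have h4 : a k ≠ 0 := by
    intro h
    apply h3
    rw [h]; simp
  exact Nat.Coprime.coprime_dvd_left hk.2 (ha k h4).2.2

theorem wAC_supp {q z M K A : ℕ} {a : ℕ → ℝ}
    (ha : ∀ k, a k ≠ 0 → smooth z k ∧ k ≤ A ∧ k.Coprime q) {d : ℕ} (hd0 : 1 ≤ d)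
    (hd : wAC q z M K A a d ≠ 0) :
    1 ≤ d ∧ d ≤ QA M K A ∧ d.Coprime q := by
  refine ⟨hd0, ?_⟩
  unfold wAC at hd
  have h6 : al A a (smp z d) ≠ 0 ∧ wC q z M K (rop z d) ≠ 0 := by
    constructor
    · intro h0; apply hd; rw [h0]; simp
    · intro h0; apply hd; rw [h0]; simp
  obtain ⟨h1, h2, h3, h4, h5⟩ := smp_rop (z := z) hd0
  obtain ⟨h7, h8, h9⟩ := tb_al_supp ha h6.1
  obtain ⟨h10, h11, h12, h13, h14⟩ := wC_supp h6.2
  constructor
  · rw [← h1]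
    unfold QA
    rw [mul_comm]
    exact Nat.mul_le_mul h13 h8
  · rw [← h1]
    exact Nat.Coprime.mul_left h9 h14

theorem tb_sum {z X A : ℕ} {α β : ℕ → ℝ} (hα : ∀ u, α u ≠ 0 → smooth z u ∧ u ≤ A)
    (hβ : ∀ r, β r ≠ 0 → rough z r ∧ 1 ≤ r ∧ r ≤ X) (F : ℕ → ℝ) :
    ∑ d ∈ Finset.Icc 1 (X * A), α (smp z d) * β (rop z d) * F d =
      ∑ u ∈ Finset.Icc 1 A, ∑ r ∈ Finset.Icc 1 X, α u * β r * F (u * r) := by
  rw [← Finset.sum_product']
  symm
  refine Finset.sum_bij_ne_zero (fun x _ _ => x.1 * x.2) ?_ ?_ ?_ ?_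
  · rintro ⟨u, r⟩ hx _
    rw [Finset.mem_product, Finset.mem_Icc, Finset.mem_Icc] at hx
    rw [Finset.mem_Icc]
    refine ⟨Nat.mul_pos hx.1.1 hx.2.1, ?_⟩
    rw [mul_comm]
    exact Nat.mul_le_mul hx.2.2 hx.1.2
  · rintro ⟨u, r⟩ hx hx0 ⟨u', r'⟩ hx' hx0' h
    have h1 : α u ≠ 0 ∧ β r ≠ 0 := by
      constructor
      · intro h0; apply hx0; simp only [h0]; simp
      · intro h0; apply hx0; simp only [h0]; simp
    have h1' : α u' ≠ 0 ∧ β r' ≠ 0 := by
      constructor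
      · intro h0; apply hx0'; simp only [h0]; simp
      · intro h0; apply hx0'; simp only [h0]; simp
    have h2 := SRO_unique (hα u h1.1).1 (hβ r h1.2).1 (hα u' h1'.1).1
      (hβ r' h1'.2).1 (hβ r h1.2).2.1 h
    exact Prod.ext h2.1 h2.2
  · intro d hd hd0
    rw [Finset.mem_Icc] at hd
    obtain ⟨h1, h2, h3, h4, h5⟩ := smp_rop (z := z) hd.1
    have h6 : α (smp z d) ≠ 0 ∧ β (rop z d) ≠ 0 := by
      constructor
      · intro h0; apply hd0; rw [h0]; simp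
      · intro h0; apply hd0; rw [h0]; simp
    have h7 : (smp z d, rop z d) ∈ Finset.Icc 1 A ×ˢ Finset.Icc 1 X := by
      rw [Finset.mem_product, Finset.mem_Icc, Finset.mem_Icc]
      exact ⟨⟨Nat.pos_of_ne_zero h3.1, (hα _ h6.1).2⟩, h5, (hβ _ h6.2).2.2⟩
    refine ⟨(smp z d, rop z d), h7, ?_, h1⟩
    simp only [h1]
    exact hd0
  · rintro ⟨u, r⟩ hx hx0
    have h1 : α u ≠ 0 ∧ β r ≠ 0 := by
      constructor
      · intro h0; apply hx0; simp only [h0]; simp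
      · intro h0; apply hx0; simp only [h0]; simp
    obtain ⟨h2, h3⟩ := smp_mul (hα u h1.1).1 (hβ r h1.2).1 (hβ r h1.2).2.1
    simp only [h2, h3]

/-- the Fourier coefficients factor -/
theorem ww_factorC {q z M K A : ℕ} {a : ℕ → ℝ}
    (ha : ∀ k, a k ≠ 0 → smooth z k ∧ k ≤ A ∧ k.Coprime q) (hK : 1 ≤ K) {n : ℕ} (hn : 1 ≤ n)
    (hnq : n.Coprime q) : WW (QA M K A) (wAC q z M K A a) n = Ph A a n * Wr z M K n := by
  have h1 : WW (QA M K A) (wAC q z M K A a) n =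
      (∑ u ∈ Finset.Icc 1 A, al A a u * cc u n) *
        ∑ r ∈ Finset.Icc 1 (K * M), wC q z M K r * cc r n := by
    have h2 := tb_sum (z := z) (X := K * M) (A := A) (α := al A a) (β := wC q z M K)
      (fun u hu => ⟨(tb_al_supp ha hu).1, (tb_al_supp ha hu).2.1⟩)
      (fun r hr => ⟨(wC_supp hr).1, (wC_supp hr).2.1, (wC_supp hr).2.2.2.1⟩) (fun d => cc d n)
    have h3 : WW (QA M K A) (wAC q z M K A a) n =
        ∑ d ∈ Finset.Icc 1 (K * M * A), al A a (smp z d) * wC q z M K (rop z d) * cc d n := rfl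
    rw [h3, h2, Finset.sum_mul_sum]
    refine Finset.sum_congr rfl fun u hu => Finset.sum_congr rfl fun r hr => ?_
    rw [Finset.mem_Icc] at hu hr
    by_cases h3 : al A a u = 0
    · rw [h3]; ring
    · by_cases h4 : wC q z M K r = 0
      · rw [h4]; ring
      · rw [wwf_cc_mul n hu.1 hr.1 (wwf_cop (tb_al_supp ha h3).1 (wC_supp h4).1)]
        ring
  have hy : ∀ e, tb_y q z M K e ≠ 0 → 1 ≤ e ∧ e ≤ K * M := fun e he =>
    ⟨(wwf_yE (tb_y_ne he).2).2.1, wwf_yE_le hK (tb_y_ne he).2⟩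
  have h2 : ∑ r ∈ Finset.Icc 1 (K * M), wC q z M K r * cc r n =
      ∑ e ∈ Finset.Icc 1 (K * M), tb_y q z M K e * ∑ r ∈ e.divisors, cc r n := by
    have h := wwf_swap (K * M) (tb_y q z M K) (fun r => cc r n) (fun _ _ => 1)
    simp only [one_mul, mul_one] at h
    rw [← h]
    refine Finset.sum_congr rfl fun r hr => ?_
    rw [Finset.mem_Icc] at hr
    rw [tb_wC, wwf_mult hy hr.1]
  rw [h1, wwf_Ph, h2]
  congr 1
  rw [Wr]
  have h4 : ∑ e ∈ Finset.Icc 1 (K * M), tb_y q z M K e * ∑ r ∈ e.divisors, cc r n =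
      ∑ e ∈ (Finset.Icc 1 (K * M)).filter (fun e => e ∣ n), (e : ℝ) * yE z M K e := by
    rw [Finset.sum_filter]
    refine Finset.sum_congr rfl fun e he => ?_
    rw [Finset.mem_Icc] at he
    rw [wwf_sum_cc n he.1]
    split_ifs with h5
    · unfold tb_y
      rw [if_pos (Nat.Coprime.coprime_dvd_left h5 hnq)]
      ring
    · ring
  rw [h4]
  refine Finset.sum_subset_zero_on_sdiff ?_ ?_ (fun _ _ => rfl)
  · intro e he
    rw [Finset.mem_filter] at he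
    exact Nat.mem_divisors.mpr ⟨he.2, by omega⟩
  · intro e he
    rw [Finset.mem_sdiff, Finset.mem_filter, Finset.mem_Icc, Nat.mem_divisors] at he
    by_contra h2
    have h3 : yE z M K e ≠ 0 := fun h => h2 (by rw [h, mul_zero])
    exact he.2 ⟨⟨(wwf_yE h3).2.1, wwf_yE_le hK h3⟩, he.1.1⟩

end Pool.Agent.TK
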