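import Pool.Agent.Lib_helper41.TK.W.TD
import Pool.Agent.Lib_helper68.KSLF.BGB

/-! TK, block TH. -/

set_option autoImplicit false

namespace Pool.Agent.TK

open Pool.Agent.LEV Pool.Agent.LVB Pool.Agent.KSL
open Pool.Agent.LK (PQ)
open Pool.Agent.FG61 (mu phi cc ff AA Lam)
open Complex MeasureTheory Filter Topology UpperHalfPlane ModularGroup ProbabilityTheory
open scoped MatrixGroups Modular ENNReal ModularForm ComplexConjugate ContDiff

theorem th_phi_nonneg (q : ℕ) : 0 ≤ phi q / q := by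
  have : 0 ≤ phi q := by
    unfold phi
    positivity
  positivity

theorem th_mono (q : ℕ) (w : ℕ → ℝ) : Monotone (fun D : ℝ => phi q / q * GD w D) := by
  intro D D' h
  exact mul_le_mul_of_nonneg_left (BGB_gd_mono w h) (th_phi_nonneg q)

theorem th_cn_nonneg (q z A : ℕ) (a : ℕ → ℝ) : 0 ≤ cnC q z A a := by
  unfold cnC
  apply tsum_nonneg
  intro m
  split_ifs
  · positivity
  · exact le_rfl

/-- the main term of the sum over all heights -/
theorem b_intC {δ : ℝ} (h0 : 0 < δ) (h1 : δ < 1 / 4) {ε : ℝ} (hε : 0 < ε) (C₀ : ℝ) :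
    ∃ ε' ε₁ : ℝ, 0 < ε' ∧ 0 < ε₁ ∧ ∀ ε₂ : ℝ, 0 < ε₂ → ε₂ ≤ ε₁ → ∃ N₀ : ℕ, ∀ n : ℕ, N₀ ≤ n →
    ∀ q : ℕ, 1 ≤ q → q ≤ n → ∀ a : ℕ → ℝ, ShC q (zz n) (KA ε₂ n) a →
    cnC q (zz n) (KA ε₂ n) a ≤ C₀ →
      IntegrableOn (fun y : ℝ =>
        max ((1 + ε') * cnC q (zz n) (KA ε₂ n) a / Real.log (MM δ n) -
          phi q / q * GD (wwC q δ ε₂ n a) (2 / (y * Real.sqrt n))) 0 / y)
        (Set.Ioo (2 / (QQ δ ε₂ n * Real.sqrt n)) (2 / Real.sqrt n)) ∧
      ∫ y in Set.Ioo (2 / (QQ δ ε₂ n * Real.sqrt n)) (2 / Real.sqrt n),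
        max ((1 + ε') * cnC q (zz n) (KA ε₂ n) a / Real.log (MM δ n) -
          phi q / q * GD (wwC q δ ε₂ n a) (2 / (y * Real.sqrt n))) 0 / y ≤
        cnC q (zz n) (KA ε₂ n) a / 2 + ε := by
  obtain ⟨θ, hθ, hθ1, hθ2⟩ : ∃ θ : ℝ, 0 < θ ∧ θ ≤ 1 / 40 ∧ 40 * θ * (|C₀| + 1) ≤ ε := by
    have hc : 0 < |C₀| + 1 := by positivity
    refine ⟨min 1 (ε / (|C₀| + 1)) / 40, by positivity, ?_, ?_⟩
    · have := min_le_left 1 (ε / (|C₀| + 1))
      linarith
    · have h2 := min_le_right 1 (ε / (|C₀| + 1))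
      calc 40 * (min 1 (ε / (|C₀| + 1)) / 40) * (|C₀| + 1) =
          min 1 (ε / (|C₀| + 1)) * (|C₀| + 1) := by ring
        _ ≤ ε / (|C₀| + 1) * (|C₀| + 1) := mul_le_mul_of_nonneg_right h2 hc.le
        _ = ε := by field_simp
  refine ⟨θ, θ, hθ, hθ, fun ε₂ h2 h2' => ?_⟩
  obtain ⟨N₁, hN₁⟩ := sizes h0 h1 hθ
  obtain ⟨N₂, hN₂⟩ := gd_lowerC h0 h1 hθ
  obtain ⟨N₃, hN₃⟩ := eventually_atTop.1
    ((Real.tendsto_log_atTop.comp tendsto_natCast_atTop_atTop).eventually_ge_atTop (5 / θ))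
  refine ⟨max N₁ (max N₂ N₃), fun N hN q hq1 hqN a ha hcn => ?_⟩
  have hN1 : N₁ ≤ N := (le_max_left _ _).trans hN
  have hN2 : N₂ ≤ N := (le_max_left _ _).trans ((le_max_right _ _).trans hN)
  have hN3 : N₃ ≤ N := (le_max_right _ _).trans ((le_max_right _ _).trans hN)
  obtain ⟨n3, z2, zM, -, -, -, hM, -, -⟩ := hN₁ N hN1
  have hlN : 5 / θ ≤ Real.log N := hN₃ N hN3
  obtain ⟨A1, -, A3⟩ := ka_size h2 (show 1 ≤ N by omega)
  have hgd := hN₂ N hN2 q hq1 hqN (KA ε₂ N) A1 a ha.sup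
  have hc0 := th_cn_nonneg q (zz N) (KA ε₂ N) a
  have hww : ∀ D, GD (wAC q (zz N) (MM δ N) 2 (KA ε₂ N) a) D = GD (wwC q δ ε₂ N a) D :=
    fun D => rfl
  simp only [hww] at hgd
  have hmono := th_mono q (wwC q δ ε₂ N a)
  obtain ⟨G, hG⟩ : ∃ G : ℝ → ℝ, G = fun D : ℝ => phi q / q * GD (wwC q δ ε₂ N a) D := ⟨_, rfl⟩
  have hGD : ∀ D : ℝ, phi q / q * GD (wwC q δ ε₂ N a) D = G D := fun D => by rw [hG]
  rw [← hG] at hmono
  simp only [hGD] at hgd ⊢
  set c := cnC q (zz N) (KA ε₂ N) a with hcdef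
  set L := Real.log (MM δ N) with hLdef
  have hN0 : (0 : ℝ) < N := by
    have : 0 < N := by omega
    exact_mod_cast this
  have hMpos : (0 : ℝ) < MM δ N := by
    have : 0 < MM δ N := by omega
    exact_mod_cast this
  have hA1 : (1 : ℝ) ≤ KA ε₂ N := by exact_mod_cast A1
  have hlN200 : 200 ≤ Real.log N := by
    refine le_trans ?_ hlN
    rw [le_div_iff₀ hθ]
    linarith
  have hLN : Real.log N ≤ 5 * L := by
    have := (abs_le.1 hM).1
    nlinarith
  have hL : 0 < L := by linarith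
  have hθL : 1 ≤ θ * L := by
    have : 5 ≤ θ * Real.log N := by
      rw [div_le_iff₀ hθ] at hlN
      linarith
    nlinarith
  have hlA : Real.log (KA ε₂ N) ≤ 5 * θ * L := by
    calc Real.log (KA ε₂ N) ≤ ε₂ * Real.log N := A3
      _ ≤ θ * Real.log N := mul_le_mul_of_nonneg_right h2' (by linarith)
      _ ≤ θ * (5 * L) := mul_le_mul_of_nonneg_left hLN hθ.le
      _ = 5 * θ * L := by ring
  have hlA0 : 0 ≤ Real.log (KA ε₂ N) := Real.log_nonneg hA1
  have hl2 : Real.log 2 ≤ 1 := by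
    have := Real.log_two_lt_d9
    linarith
  have hl20 : 0 ≤ Real.log 2 := Real.log_nonneg (by norm_num)
  have hQdef : (QQ δ ε₂ N : ℝ) = 2 * MM δ N * KA ε₂ N := by
    unfold QQ QA
    push_cast
    ring
  have hQpos : (0 : ℝ) < QQ δ ε₂ N := by
    rw [hQdef]
    positivity
  have hlQ : Real.log (QQ δ ε₂ N) = Real.log 2 + L + Real.log (KA ε₂ N) := by
    rw [hQdef, Real.log_mul (by positivity) (by positivity), Real.log_mul (by norm_num)
      hMpos.ne']
  have hsq : 0 < Real.sqrt N := Real.sqrt_pos.2 hN0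
  set b := 2 / Real.sqrt N with hb
  have hb0 : 0 < b := by positivity
  have ha' : 2 / ((QQ δ ε₂ N : ℝ) * Real.sqrt N) = b / QQ δ ε₂ N := by
    rw [hb]
    field_simp
  rw [ha']
  have ha0 : 0 < b / QQ δ ε₂ N := by positivity
  have hQ1 : (1 : ℝ) ≤ QQ δ ε₂ N := by
    have : 1 ≤ QQ δ ε₂ N := by
      have := (show (0 : ℝ) < QQ δ ε₂ N from hQpos)
      exact_mod_cast this
    exact_mod_cast this
  have hab : b / QQ δ ε₂ N ≤ b := div_le_self hb0.le hQ1
  have hlab : Real.log b - Real.log (b / QQ δ ε₂ N) = Real.log (QQ δ ε₂ N) := by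
    rw [Real.log_div hb0.ne' hQpos.ne']
    ring
  -- the pointwise bound
  have hpt : ∀ y ∈ Set.Ioo (b / QQ δ ε₂ N) b,
      max ((1 + θ) * c / L - G (2 / (y * Real.sqrt N))) 0 / y ≤
        (c * (1 + 17 * θ) / L - c * (1 - θ) / L ^ 2 * (Real.log b - Real.log y)) / y := by
    intro y hy
    have hy0 : 0 < y := ha0.trans hy.1
    have hD : 2 / (y * Real.sqrt N) = b / y := by
      rw [hb]
      field_simp
    rw [hD]
    refine div_le_div_of_nonneg_right ?_ hy0.le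
    have hlt : Real.log b - Real.log y = Real.log (b / y) := (Real.log_div hb0.ne' hy0.ne').symm
    rw [hlt]
    have hD1 : 1 ≤ b / y := by
      rw [le_div_iff₀ hy0]
      linarith [hy.2]
    have hDQ : b / y ≤ QQ δ ε₂ N := by
      rw [div_le_iff₀ hy0]
      have := hy.1.le
      rw [div_le_iff₀ hQpos] at this
      linarith
    have htQ : Real.log (b / y) ≤ Real.log 2 + L + Real.log (KA ε₂ N) := by
      rw [← hlQ]
      exact Real.log_le_log (by linarith) hDQ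
    have hNp : 0 < (N : ℝ) ^ (-θ) := Real.rpow_pos_of_pos hN0 _
    have hlD1 : Real.log (MM δ N * (N : ℝ) ^ (-θ)) = L - θ * Real.log N := by
      rw [Real.log_mul hMpos.ne' hNp.ne', Real.log_rpow hN0]
      ring
    have hθN : θ * Real.log N ≤ 5 * (θ * L) := by
      calc θ * Real.log N ≤ θ * (5 * L) := mul_le_mul_of_nonneg_left hLN hθ.le
        _ = 5 * (θ * L) := by ring
    have hθN2 : θ * Real.log N ≤ 1 / 40 * Real.log N :=
      mul_le_mul_of_nonneg_right hθ1 (by linarith)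
    obtain ⟨D', hD'1, hD'2, hD'3, hD'4⟩ : ∃ D' : ℝ, 1 ≤ D' ∧ D' ≤ MM δ N * (N : ℝ) ^ (-θ) ∧
        G D' ≤ G (b / y) ∧ Real.log (b / y) - 11 * θ * L ≤ Real.log D' := by
      by_cases hcase : b / y ≤ MM δ N * (N : ℝ) ^ (-θ)
      · exact ⟨b / y, hD1, hcase, le_rfl, by linarith⟩
      · push Not at hcase
        refine ⟨MM δ N * (N : ℝ) ^ (-θ), ?_, le_rfl, hmono hcase.le, ?_⟩
        · rw [← Real.log_nonneg_iff (by positivity), hlD1]
          linarith
        · rw [hlD1]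
          linarith
    have hup : Real.log (b / y) ≤ L * (1 + 6 * θ) := by
      have h5 : L * (1 + 6 * θ) = L + (θ * L + 5 * θ * L) := by ring
      rw [h5]
      linarith
    exact BGB_arith hc0 hL hθ hθ1 hlA hup hD'4 ((hgd D' hD'1 hD'2).trans hD'3)
  obtain ⟨I1, I2⟩ := BGB_calc ha0 hab (c * (1 + 17 * θ) / L) (c * (1 - θ) / L ^ 2)
  have hmeas : Measurable (fun y : ℝ =>
      max ((1 + θ) * c / L - G (2 / (y * Real.sqrt N))) 0 / y) := by
    have hGm : Measurable G := hmono.measurable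
    have : Measurable (fun y : ℝ => G (2 / (y * Real.sqrt N))) :=
      hGm.comp (measurable_const.div (measurable_id.mul_const _))
    exact ((measurable_const.sub this).max measurable_const).div measurable_id
  have hint : IntegrableOn (fun y : ℝ =>
      max ((1 + θ) * c / L - G (2 / (y * Real.sqrt N))) 0 / y) (Set.Ioo (b / QQ δ ε₂ N) b) := by
    refine Integrable.mono' I1 hmeas.aestronglyMeasurable ?_
    refine (ae_restrict_iff' measurableSet_Ioo).2 (Eventually.of_forall fun y hy => ?_)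
    have hy0 : 0 < y := ha0.trans hy.1
    rw [Real.norm_of_nonneg (div_nonneg (le_max_right _ _) hy0.le)]
    exact hpt y hy
  refine ⟨hint, ?_⟩
  refine (setIntegral_mono_on hint I1 measurableSet_Ioo hpt).trans ?_
  rw [I2, hlab, hlQ]
  set ρ := Real.log 2 + L + Real.log (KA ε₂ N) with hρ
  have hρ1 : L ≤ ρ := by linarith
  have hρ2 : ρ ≤ L * (1 + 6 * θ) := by
    have h5 : L * (1 + 6 * θ) = L + (θ * L + 5 * θ * L) := by ring
    rw [h5, hρ]
    linarith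
  have hcC : c * (40 * θ) ≤ ε := by
    refine le_trans ?_ hθ2
    rw [mul_comm]
    refine mul_le_mul_of_nonneg_left ?_ (by positivity)
    have := le_abs_self C₀
    linarith
  have e1 : c * (1 + 17 * θ) / L * ρ ≤ c * ((1 + 17 * θ) * (1 + 6 * θ)) := by
    have : ρ / L ≤ 1 + 6 * θ := by
      rw [div_le_iff₀ hL]
      linarith
    calc c * (1 + 17 * θ) / L * ρ = c * ((1 + 17 * θ) * (ρ / L)) := by ring
      _ ≤ c * ((1 + 17 * θ) * (1 + 6 * θ)) := by
        refine mul_le_mul_of_nonneg_left (mul_le_mul_of_nonneg_left this (by positivity)) hc0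
  have e2 : c * ((1 - θ) / 2) ≤ c * (1 - θ) / L ^ 2 * ρ ^ 2 / 2 := by
    have h3 : 1 ≤ ρ ^ 2 / L ^ 2 := by
      rw [le_div_iff₀ (by positivity), one_mul]
      exact pow_le_pow_left₀ hL.le hρ1 2
    calc c * ((1 - θ) / 2) = c * ((1 - θ) / 2) * 1 := by ring
      _ ≤ c * ((1 - θ) / 2) * (ρ ^ 2 / L ^ 2) :=
        mul_le_mul_of_nonneg_left h3 (mul_nonneg hc0 (by linarith))
      _ = c * (1 - θ) / L ^ 2 * ρ ^ 2 / 2 := by ring
  have e3 : c * ((1 + 17 * θ) * (1 + 6 * θ)) - c * ((1 - θ) / 2) ≤ c / 2 + c * (40 * θ) := by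
    have h6 : θ * θ ≤ θ * (1 / 40) := mul_le_mul_of_nonneg_left hθ1 hθ.le
    have : (1 + 17 * θ) * (1 + 6 * θ) - (1 - θ) / 2 ≤ 1 / 2 + 40 * θ := by linarith
    calc c * ((1 + 17 * θ) * (1 + 6 * θ)) - c * ((1 - θ) / 2) =
        c * ((1 + 17 * θ) * (1 + 6 * θ) - (1 - θ) / 2) := by ring
      _ ≤ c * (1 / 2 + 40 * θ) := mul_le_mul_of_nonneg_left this hc0
      _ = c / 2 + c * (40 * θ) := by ring
  linarith

end Pool.Agent.TK
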